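import Mathlib
import Pool.Agent.MP_db30a9_co.D

set_option autoImplicit false

namespace Pool.Agent.Results.MP_db30a9_co.FreeGroupDDC

open Pool.Agent.MP_db30a9_co

/-- `D` is a distinct difference configuration: the elements `g⁻¹ * h`, over all ordered pairs
`(g, h)` of distinct elements of `D`, are pairwise distinct. -/
def IsDDC {n : ℕ} (D : Set (FreeGroup (Fin n))) : Prop :=
  ∀ g ∈ D, ∀ h ∈ D, ∀ g' ∈ D, ∀ h' ∈ D, g ≠ h → g' ≠ h' → g⁻¹ * h = g'⁻¹ * h' → g = g' ∧ h = h'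

/-- `D` has diameter at most `d` for the word length. -/
def DiamLE {n : ℕ} (d : ℕ) (D : Set (FreeGroup (Fin n))) : Prop :=
  ∀ g ∈ D, ∀ h ∈ D, FreeGroup.norm (g⁻¹ * h) ≤ d

/-- cardinalities of the distinct difference configurations of diameter at most `d` in the free
group of rank `n` -/
def ddcCards (n d : ℕ) : Set ℕ∞ :=
  {k | ∃ D : Set (FreeGroup (Fin n)), IsDDC D ∧ DiamLE d D ∧ D.encard = k}

theorem IsDDC.mono {n : ℕ} {D E : Set (FreeGroup (Fin n))} (h : IsDDC D) (hE : E ⊆ D) : IsDDC E :=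
  fun g hg k hk g' hg' k' hk' => h g (hE hg) k (hE hk) g' (hE hg') k' (hE hk')

theorem DiamLE.mono {n d : ℕ} {D E : Set (FreeGroup (Fin n))} (h : DiamLE d D) (hE : E ⊆ D) :
    DiamLE d E :=
  fun g hg k hk => h g (hE hg) k (hE hk)

theorem lower {n : ℕ} (hn : 2 ≤ n) {s : ℕ} (hs : 1 ≤ s) :
    ∃ D : Finset (FreeGroup (Fin n)), IsDDC (D : Set (FreeGroup (Fin n))) ∧
      DiamLE (6 * s + 8) (D : Set (FreeGroup (Fin n))) ∧ (2 * n - 1) ^ (2 * s) ≤ D.card := by
  classical
  obtain ⟨φ, h1, h2, h3⟩ := exists_ddc hn hs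
  refine ⟨(RW n (2 * s)).image (fun w => FreeGroup.mk (φ w)), ?_, ?_, ?_⟩
  · intro g hg h hh g' hg' h' hh' hgh hgh' heq
    simp only [Finset.coe_image, Set.mem_image, Finset.mem_coe] at hg hh hg' hh'
    obtain ⟨w₁, hw₁, rfl⟩ := hg
    obtain ⟨w₂, hw₂, rfl⟩ := hh
    obtain ⟨w₃, hw₃, rfl⟩ := hg'
    obtain ⟨w₄, hw₄, rfl⟩ := hh'
    have := h3 w₁ hw₁ w₂ hw₂ w₃ hw₃ w₄ hw₄ (fun e => hgh (by rw [e])) (fun e => hgh' (by rw [e])) heq
    rw [this.1, this.2]
    exact ⟨rfl, rfl⟩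
  · intro g hg h hh
    simp only [Finset.coe_image, Set.mem_image, Finset.mem_coe] at hg hh
    obtain ⟨w₁, hw₁, rfl⟩ := hg
    obtain ⟨w₂, hw₂, rfl⟩ := hh
    have a1 := (mem_RW.mp (h1 w₁ hw₁)).1
    have a2 := (mem_RW.mp (h1 w₂ hw₂)).1
    calc FreeGroup.norm ((FreeGroup.mk (φ w₁))⁻¹ * FreeGroup.mk (φ w₂))
        ≤ FreeGroup.norm ((FreeGroup.mk (φ w₁))⁻¹) + FreeGroup.norm (FreeGroup.mk (φ w₂)) :=
          FreeGroup.norm_mul_le _ _
      _ = FreeGroup.norm (FreeGroup.mk (φ w₁)) + FreeGroup.norm (FreeGroup.mk (φ w₂)) := by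
          rw [FreeGroup.norm_inv_eq]
      _ ≤ (φ w₁).length + (φ w₂).length :=
          Nat.add_le_add FreeGroup.norm_mk_le FreeGroup.norm_mk_le
      _ = 6 * s + 8 := by rw [a1, a2]; ring
  · rw [Finset.card_image_of_injOn]
    · obtain ⟨k, hk⟩ : ∃ k, 2 * s = k + 1 := ⟨2 * s - 1, by omega⟩
      rw [hk, card_RW, pow_succ, mul_comm]
      exact Nat.mul_le_mul_right _ (by omega)
    · intro w₁ hw₁ w₂ hw₂ heq
      simp only [Finset.mem_coe] at hw₁ hw₂
      apply h2 w₁ hw₁ w₂ hw₂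
      have := congrArg FreeGroup.toWord heq
      simp only [FreeGroup.toWord_mk] at this
      rwa [(mem_RW.mp (h1 w₁ hw₁)).2.reduce_eq, (mem_RW.mp (h1 w₂ hw₂)).2.reduce_eq] at this

/-- reduced words of length at most `j` -/
def RWle (n j : ℕ) : Finset (List (Letter n)) := (Finset.range (j + 1)).biUnion (RW n)

theorem mem_RWle {n j : ℕ} {L : List (Letter n)} :
    L ∈ RWle n j ↔ L.length ≤ j ∧ FreeGroup.IsReduced L := by
  simp only [RWle, Finset.mem_biUnion, Finset.mem_range, mem_RW]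
  constructor
  · rintro ⟨i, hi, h1, h2⟩
    exact ⟨by omega, h2⟩
  · rintro ⟨h1, h2⟩
    exact ⟨L.length, by omega, rfl, h2⟩

theorem card_RWle {n : ℕ} (hn : 2 ≤ n) (j : ℕ) : (RWle n j).card + 1 ≤ 2 * (2 * n - 1) ^ j := by
  induction j with
  | zero => simp [RWle, RW]
  | succ j ih =>
    have h1 : RWle n (j + 1) = RW n (j + 1) ∪ RWle n j := by
      simp only [RWle]
      rw [Finset.range_add_one, Finset.biUnion_insert]
    have h2 : (RWle n (j + 1)).card ≤ (RW n (j + 1)).card + (RWle n j).card := by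
      rw [h1]; exact Finset.card_union_le _ _
    rw [card_RW] at h2
    have h3 : 2 * n * (2 * n - 1) ^ j + 2 * (2 * n - 1) ^ j ≤ 2 * (2 * n - 1) ^ (j + 1) := by
      obtain ⟨k, rfl⟩ : ∃ k, n = k + 2 := ⟨n - 2, by omega⟩
      have e : 2 * (k + 2) - 1 = 2 * k + 3 := by omega
      rw [e, pow_succ]
      have : (2 * (k + 2) + 2) * (2 * k + 3) ^ j ≤ (2 * (2 * k + 3)) * (2 * k + 3) ^ j :=
        Nat.mul_le_mul_right _ (by omega)
      calc 2 * (k + 2) * (2 * k + 3) ^ j + 2 * (2 * k + 3) ^ j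
          = (2 * (k + 2) + 2) * (2 * k + 3) ^ j := by ring
        _ ≤ (2 * (2 * k + 3)) * (2 * k + 3) ^ j := this
        _ = 2 * ((2 * k + 3) ^ j * (2 * k + 3)) := by ring
    omega

/-- a set inside a ball centred at the identity -/
theorem upper_ball {n : ℕ} (hn : 2 ≤ n) {R : ℕ} (j : ℕ) (F : Finset (FreeGroup (Fin n)))
    (hF : IsDDC (F : Set (FreeGroup (Fin n)))) (hR : ∀ g ∈ F, FreeGroup.norm g ≤ R) :
    F.card ≤ 2 * (2 * n - 1) ^ j + 2 * (2 * n - 1) ^ (2 * (R - j)) := by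
  classical
  let T : FreeGroup (Fin n) → List (Letter n) := fun g => (FreeGroup.toWord g).take j
  have hclose : ∀ g ∈ F, ∀ h ∈ F, T g = T h → FreeGroup.norm (g⁻¹ * h) ≤ 2 * (R - j) := by
    intro g hg h hh hT
    have e1 : g = FreeGroup.mk (T g) * FreeGroup.mk ((FreeGroup.toWord g).drop j) := by
      simp only [T]
      rw [FreeGroup.mul_mk, List.take_append_drop, FreeGroup.mk_toWord]
    have e2 : h = FreeGroup.mk (T g) * FreeGroup.mk ((FreeGroup.toWord h).drop j) := by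
      rw [hT]
      simp only [T]
      rw [FreeGroup.mul_mk, List.take_append_drop, FreeGroup.mk_toWord]
    have e3 : g⁻¹ * h = (FreeGroup.mk ((FreeGroup.toWord g).drop j))⁻¹ *
        FreeGroup.mk ((FreeGroup.toWord h).drop j) := by
      conv_lhs => rw [e1, e2]
      rw [mul_inv_rev, mul_assoc, inv_mul_cancel_left]
    rw [e3]
    have n1 := hR g hg
    have n2 := hR h hh
    unfold FreeGroup.norm at n1 n2
    have m1 : FreeGroup.norm (FreeGroup.mk ((FreeGroup.toWord g).drop j)) ≤ R - j := by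
      refine le_trans FreeGroup.norm_mk_le ?_
      rw [List.length_drop]
      exact Nat.sub_le_sub_right n1 j
    have m2 : FreeGroup.norm (FreeGroup.mk ((FreeGroup.toWord h).drop j)) ≤ R - j := by
      refine le_trans FreeGroup.norm_mk_le ?_
      rw [List.length_drop]
      exact Nat.sub_le_sub_right n2 j
    refine le_trans (FreeGroup.norm_mul_le _ _) ?_
    rw [FreeGroup.norm_inv_eq]
    omega
  -- representatives
  have hrep : ∀ L ∈ F.image T, ∃ g ∈ F, T g = L := by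
    intro L hL
    rw [Finset.mem_image] at hL
    exact hL
  choose! r hr1 hr2 using hrep
  let A := F.filter (fun g => r (T g) = g)
  let B := F.filter (fun g => ¬ r (T g) = g)
  have hAB : A.card + B.card = F.card := Finset.card_filter_add_card_filter_not _
  have hA : A.card ≤ (RWle n j).card := by
    apply Finset.card_le_card_of_injOn T
    · intro g hg
      simp only [Finset.mem_coe, mem_RWle, T]
      exact ⟨List.length_take_le _ _,
        isReduced_take FreeGroup.isReduced_toWord j⟩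
    · intro g hg h hh hT
      simp only [A, Finset.coe_filter, Set.mem_ofPred_eq] at hg hh
      rw [← hg.2, ← hh.2, hT]
  have hB : B.card ≤ (RWle n (2 * (R - j))).card := by
    apply Finset.card_le_card_of_injOn (fun g => FreeGroup.toWord (g⁻¹ * r (T g)))
    · intro g hg
      simp only [B, Finset.coe_filter, Set.mem_ofPred_eq] at hg
      have hm := Finset.mem_image_of_mem T hg.1
      simp only [Finset.mem_coe, mem_RWle]
      exact ⟨hclose g hg.1 _ (hr1 _ hm) (hr2 _ hm).symm, FreeGroup.isReduced_toWord⟩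
    · intro g hg h hh hT
      simp only [B, Finset.coe_filter, Set.mem_ofPred_eq] at hg hh
      have hmg := Finset.mem_image_of_mem T hg.1
      have hmh := Finset.mem_image_of_mem T hh.1
      have heq := FreeGroup.toWord_injective hT
      exact (hF g hg.1 _ (hr1 _ hmg) h hh.1 _ (hr1 _ hmh) (fun e => hg.2 e.symm)
        (fun e => hh.2 e.symm) heq).1
  have c1 := card_RWle hn j
  have c2 := card_RWle hn (2 * (R - j))
  omega

theorem ddc_image_mul {n : ℕ} [DecidableEq (FreeGroup (Fin n))] (c : FreeGroup (Fin n)) (F : Finset (FreeGroup (Fin n)))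
    (hF : IsDDC (F : Set (FreeGroup (Fin n)))) :
    IsDDC ((F.image (c * ·) : Finset (FreeGroup (Fin n))) : Set (FreeGroup (Fin n))) := by
  intro g hg h hh g' hg' h' hh' hgh hgh' heq
  simp only [Finset.coe_image, Set.mem_image, Finset.mem_coe] at hg hh hg' hh'
  obtain ⟨g, hg, rfl⟩ := hg
  obtain ⟨h, hh, rfl⟩ := hh
  obtain ⟨g', hg', rfl⟩ := hg'
  obtain ⟨h', hh', rfl⟩ := hh'
  have e : ∀ a b : FreeGroup (Fin n), (c * a)⁻¹ * (c * b) = a⁻¹ * b := by
    intro a b
    rw [mul_inv_rev, mul_assoc, inv_mul_cancel_left]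
  rw [e, e] at heq
  have := hF g hg h hh g' hg' h' hh' (fun e => hgh (by rw [e])) (fun e => hgh' (by rw [e])) heq
  rw [this.1, this.2]
  exact ⟨rfl, rfl⟩

theorem upper {n : ℕ} (hn : 2 ≤ n) {d : ℕ} (j : ℕ) (F : Finset (FreeGroup (Fin n)))
    (hF : IsDDC (F : Set (FreeGroup (Fin n)))) (hd : DiamLE d (F : Set (FreeGroup (Fin n)))) :
    F.card ≤ 2 * (2 * n - 1) ^ j + 2 * (2 * n - 1) ^ (2 * (d - d / 2 - j)) := by
  classical
  rcases F.eq_empty_or_nonempty with rfl | hne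
  · simp
  obtain ⟨⟨g0, h0⟩, hm, hmax⟩ := Finset.exists_max_image (F ×ˢ F)
    (fun x => FreeGroup.norm (x.1⁻¹ * x.2)) (hne.product hne)
  rw [Finset.mem_product] at hm
  set δ := FreeGroup.norm (g0⁻¹ * h0) with hδ
  have hδd : δ ≤ d := hd g0 (by simpa using hm.1) h0 (by simpa using hm.2)
  have hmax' : ∀ g ∈ F, ∀ h ∈ F, FreeGroup.norm (g⁻¹ * h) ≤ δ := by
    intro g hg h hh
    exact hmax (g, h) (Finset.mem_product.mpr ⟨hg, hh⟩)
  set H := FreeGroup.toWord (g0⁻¹ * h0) with hH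
  have hHl : H.length = δ := rfl
  set k := δ / 2 with hk
  let c : FreeGroup (Fin n) := FreeGroup.mk (H.take k)
  have key : ∀ g ∈ F, FreeGroup.norm (c⁻¹ * (g0⁻¹ * g)) ≤ d - d / 2 := by
    intro g hg
    obtain ⟨P, a, b, hP1, hP2, hab⟩ := exists_split (FreeGroup.toWord (g0⁻¹ * g)) H
    have hr1 : FreeGroup.IsReduced (P ++ a) := by rw [← hP1]; exact FreeGroup.isReduced_toWord
    have hr2 : FreeGroup.IsReduced (P ++ b) := by rw [← hP2]; exact FreeGroup.isReduced_toWord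
    have hgg : g0⁻¹ * g = FreeGroup.mk (P ++ a) := by rw [← hP1, FreeGroup.mk_toWord]
    have hhh : g0⁻¹ * h0 = FreeGroup.mk (P ++ b) := by rw [← hP2, hH, FreeGroup.mk_toWord]
    have hq : g⁻¹ * h0 = (FreeGroup.mk (P ++ a))⁻¹ * FreeGroup.mk (P ++ b) := by
      rw [← hgg, ← hhh]; group
    have hn1 : a.length + b.length ≤ δ := by
      have := hmax' g hg h0 hm.2
      rw [hq, FreeGroup.norm, toWord_quot hr1 hr2 hab, List.length_append,
        FreeGroup.invRev_length] at this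
      exact this
    have hn2 : P.length + b.length = δ := by
      rw [← hHl, hP2, List.length_append]
    have hn3 : P.length + a.length ≤ δ := by
      have := hmax' g0 hm.1 g hg
      rw [FreeGroup.norm, hP1, List.length_append] at this
      exact this
    by_cases hkP : k ≤ P.length
    · have e1 : H.take k = P.take k := by
        rw [hP2, List.take_append_of_le_length hkP]
      have e2 : FreeGroup.mk (P ++ a) = FreeGroup.mk (P.take k) * FreeGroup.mk (P.drop k ++ a) := by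
        rw [FreeGroup.mul_mk, ← List.append_assoc, List.take_append_drop]
      have e3 : c⁻¹ * (g0⁻¹ * g) = FreeGroup.mk (P.drop k ++ a) := by
        simp only [c]
        rw [e1, hgg, e2, inv_mul_cancel_left]
      rw [e3]
      refine le_trans FreeGroup.norm_mk_le ?_
      rw [List.length_append, List.length_drop]
      omega
    · push Not at hkP
      have e1 : H.take k = P ++ b.take (k - P.length) := by
        rw [hP2, List.take_append, List.take_of_length_le hkP.le]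
      have e3 : c⁻¹ * (g0⁻¹ * g) = (FreeGroup.mk (b.take (k - P.length)))⁻¹ * FreeGroup.mk a := by
        simp only [c]
        rw [e1, hgg, ← FreeGroup.mul_mk, ← FreeGroup.mul_mk, mul_inv_rev, mul_assoc,
          inv_mul_cancel_left]
      rw [e3]
      refine le_trans (FreeGroup.norm_mul_le _ _) ?_
      rw [FreeGroup.norm_inv_eq]
      have m1 : FreeGroup.norm (FreeGroup.mk (b.take (k - P.length))) ≤ k - P.length :=
        le_trans FreeGroup.norm_mk_le (List.length_take_le _ _)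
      have m2 : FreeGroup.norm (FreeGroup.mk a) ≤ a.length := FreeGroup.norm_mk_le
      omega
  have hF' := ddc_image_mul (c⁻¹ * g0⁻¹) F hF
  have := upper_ball hn (R := d - d / 2) j _ hF' (by
    intro x hx
    rw [Finset.mem_image] at hx
    obtain ⟨g, hg, rfl⟩ := hx
    have := key g hg
    rwa [mul_assoc])
  rwa [Finset.card_image_of_injective _ (mul_right_injective _)] at this

theorem upper_real {n : ℕ} (hn : 2 ≤ n) {d : ℕ} (F : Finset (FreeGroup (Fin n)))
    (hF : IsDDC (F : Set (FreeGroup (Fin n)))) (hd : DiamLE d (F : Set (FreeGroup (Fin n)))) :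
    (F.card : ℝ) ≤ (2 * (n : ℝ) - 1) ^ ((d : ℝ) / 3 + 3) := by
  have h := upper hn ((d + 2) / 3) F hF hd
  have hQ : (3 : ℝ) ≤ 2 * (n : ℝ) - 1 := by
    have : (2 : ℝ) ≤ n := by exact_mod_cast hn
    linarith
  have hQ1 : (1 : ℝ) ≤ 2 * (n : ℝ) - 1 := by linarith
  have hQ0 : (0 : ℝ) < 2 * (n : ℝ) - 1 := by linarith
  have hcast : ((2 * n - 1 : ℕ) : ℝ) = 2 * (n : ℝ) - 1 := by
    rw [Nat.cast_sub (by omega)]; push_cast; ring
  have h' : (F.card : ℝ) ≤ 2 * (2 * (n : ℝ) - 1) ^ ((d + 2) / 3)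
      + 2 * (2 * (n : ℝ) - 1) ^ (2 * (d - d / 2 - (d + 2) / 3)) := by
    rw [← hcast]
    exact_mod_cast h
  have e1 : (2 * (n : ℝ) - 1) ^ ((d + 2) / 3) ≤ (2 * (n : ℝ) - 1) ^ ((d : ℝ) / 3 + 1) := by
    rw [← Real.rpow_natCast]
    apply Real.rpow_le_rpow_of_exponent_le hQ1
    have : 3 * ((d + 2) / 3) ≤ d + 2 := Nat.mul_div_le _ _
    have : (3 : ℝ) * (((d + 2) / 3 : ℕ) : ℝ) ≤ (d : ℝ) + 2 := by exact_mod_cast this
    linarith
  have e2 : (2 * (n : ℝ) - 1) ^ (2 * (d - d / 2 - (d + 2) / 3))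
      ≤ (2 * (n : ℝ) - 1) ^ ((d : ℝ) / 3 + 1) := by
    rw [← Real.rpow_natCast]
    apply Real.rpow_le_rpow_of_exponent_le hQ1
    have : 3 * (2 * (d - d / 2 - (d + 2) / 3)) ≤ d + 3 := by omega
    have : (3 : ℝ) * ((2 * (d - d / 2 - (d + 2) / 3) : ℕ) : ℝ) ≤ (d : ℝ) + 3 := by exact_mod_cast this
    linarith
  have e3 : (2 * (n : ℝ) - 1) ^ ((d : ℝ) / 3 + 3)
      = (2 * (n : ℝ) - 1) ^ ((d : ℝ) / 3 + 1) * (2 * (n : ℝ) - 1) ^ (2 : ℝ) := by
    rw [← Real.rpow_add hQ0]
    congr 1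
    ring
  have e4 : (9 : ℝ) ≤ (2 * (n : ℝ) - 1) ^ (2 : ℝ) := by
    rw [Real.rpow_two]
    nlinarith
  have e5 : 0 < (2 * (n : ℝ) - 1) ^ ((d : ℝ) / 3 + 1) := Real.rpow_pos_of_pos hQ0 _
  rw [e3]
  calc (F.card : ℝ) ≤ 2 * (2 * (n : ℝ) - 1) ^ ((d + 2) / 3)
      + 2 * (2 * (n : ℝ) - 1) ^ (2 * (d - d / 2 - (d + 2) / 3)) := h'
    _ ≤ (2 * (n : ℝ) - 1) ^ ((d : ℝ) / 3 + 1) * 9 := by linarith
    _ ≤ (2 * (n : ℝ) - 1) ^ ((d : ℝ) / 3 + 1) * (2 * (n : ℝ) - 1) ^ (2 : ℝ) :=
      mul_le_mul_of_nonneg_left e4 e5.le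

theorem isDDC_singleton {n : ℕ} : IsDDC ({1} : Set (FreeGroup (Fin n))) := by
  intro g hg h hh g' _ h' _ hgh
  rw [Set.mem_singleton_iff] at hg hh
  exact absurd (hg.trans hh.symm) hgh

theorem result (n : ℕ) (hn : 2 ≤ n) :
    ∃ m : ℕ → ℕ, (∀ d : ℕ, IsGreatest (ddcCards n d) (m d : ℕ∞)) ∧
      ∀ d : ℕ, |Real.logb (2 * (n : ℝ) - 1) (m d) - (d : ℝ) / 3| ≤ 5 := by
  classical
  have hQ : (3 : ℝ) ≤ 2 * (n : ℝ) - 1 := by
    have : (2 : ℝ) ≤ n := by exact_mod_cast hn
    linarith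
  have hQ1 : (1 : ℝ) < 2 * (n : ℝ) - 1 := by linarith
  have hQ0 : (0 : ℝ) < 2 * (n : ℝ) - 1 := by linarith
  have hcast : ((2 * n - 1 : ℕ) : ℝ) = 2 * (n : ℝ) - 1 := by
    rw [Nat.cast_sub (by omega)]; push_cast; ring
  -- existence of a maximum
  have hmax : ∀ d : ℕ, ∃ M : ℕ, (∃ F : Finset (FreeGroup (Fin n)),
      IsDDC (F : Set (FreeGroup (Fin n))) ∧ DiamLE d (F : Set (FreeGroup (Fin n))) ∧ F.card = M) ∧
      ∀ F : Finset (FreeGroup (Fin n)), IsDDC (F : Set (FreeGroup (Fin n))) →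
        DiamLE d (F : Set (FreeGroup (Fin n))) → F.card ≤ M := by
    intro d
    let S : Set ℕ := {k | ∃ F : Finset (FreeGroup (Fin n)), IsDDC (F : Set (FreeGroup (Fin n))) ∧
      DiamLE d (F : Set (FreeGroup (Fin n))) ∧ F.card = k}
    have hS1 : S.Nonempty := by
      refine ⟨1, {1}, ?_, ?_, by simp⟩
      · rw [Finset.coe_singleton]; exact isDDC_singleton
      · intro g hg h hh
        simp at hg hh
        subst hg; subst hh
        simp
    have hS2 : BddAbove S := by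
      refine ⟨2 * (2 * n - 1) ^ 0 + 2 * (2 * n - 1) ^ (2 * (d - d / 2 - 0)), ?_⟩
      rintro k ⟨F, h1, h2, rfl⟩
      exact upper hn 0 F h1 h2
    refine ⟨sSup S, Nat.sSup_mem hS1 hS2, ?_⟩
    intro F h1 h2
    exact le_csSup hS2 ⟨F, h1, h2, rfl⟩
  choose M hM1 hM2 using hmax
  refine ⟨M, ?_, ?_⟩
  · intro d
    constructor
    · obtain ⟨F, h1, h2, h3⟩ := hM1 d
      refine ⟨(F : Set (FreeGroup (Fin n))), h1, h2, ?_⟩
      rw [Set.encard_coe_eq_coe_finsetCard, h3]
    · rintro k ⟨D, h1, h2, rfl⟩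
      by_contra hcon
      push Not at hcon
      have hle : ((M d + 1 : ℕ) : ℕ∞) ≤ D.encard := by
        push_cast
        exact Order.add_one_le_of_lt hcon
      obtain ⟨E, hE1, hE2⟩ := Set.exists_subset_encard_eq hle
      have hfin : E.Finite := Set.finite_of_encard_eq_coe hE2
      have h3 := hM2 d hfin.toFinset (by rw [hfin.coe_toFinset]; exact h1.mono hE1)
        (by rw [hfin.coe_toFinset]; exact h2.mono hE1)
      have h4 : ((hfin.toFinset.card : ℕ) : ℕ∞) = ((M d + 1 : ℕ) : ℕ∞) := by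
        rw [← hE2, hfin.encard_eq_coe_toFinset_card]
      have h5 : hfin.toFinset.card = M d + 1 := by exact_mod_cast h4
      omega
  · intro d
    have hpos : 1 ≤ M d := by
      have := hM2 d {1} (by rw [Finset.coe_singleton]; exact isDDC_singleton) (by
        intro g hg h hh
        simp at hg hh
        subst hg; subst hh
        simp)
      simpa using this
    have hposR : (0 : ℝ) < (M d : ℝ) := by exact_mod_cast hpos
    have hup : Real.logb (2 * (n : ℝ) - 1) (M d) ≤ (d : ℝ) / 3 + 3 := by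
      rw [Real.logb_le_iff_le_rpow hQ1 hposR]
      obtain ⟨F, h1, h2, h3⟩ := hM1 d
      rw [← h3]
      exact upper_real hn F h1 h2
    have hlow : (d : ℝ) / 3 - 5 ≤ Real.logb (2 * (n : ℝ) - 1) (M d) := by
      by_cases hd : d < 14
      · have h0 : 0 ≤ Real.logb (2 * (n : ℝ) - 1) (M d) :=
          Real.logb_nonneg hQ1 (by exact_mod_cast hpos)
        have : (d : ℝ) < 14 := by exact_mod_cast hd
        linarith
      · push Not at hd
        obtain ⟨F, h1, h2, h3⟩ := lower hn (s := (d - 8) / 6) (by omega)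
        have h4 := hM2 d F h1 (fun g hg h hh => le_trans (h2 g hg h hh) (by omega))
        have h5 : (2 * (n : ℝ) - 1) ^ (2 * ((d - 8) / 6)) ≤ (M d : ℝ) := by
          rw [← hcast]
          exact_mod_cast le_trans h3 h4
        rw [Real.le_logb_iff_rpow_le hQ1 hposR]
        refine le_trans ?_ h5
        rw [← Real.rpow_natCast]
        apply Real.rpow_le_rpow_of_exponent_le hQ1.le
        have : d ≤ 3 * (2 * ((d - 8) / 6)) + 13 := by omega
        have : (d : ℝ) ≤ 3 * ((2 * ((d - 8) / 6) : ℕ) : ℝ) + 13 := by exact_mod_cast this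
        linarith
    rw [abs_le]
    constructor <;> linarith

end Pool.Agent.Results.MP_db30a9_co.FreeGroupDDC
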